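import Pool.Agent.NMD.DI
import Pool.Agent.NMD.DCE
import Pool.Agent.NMD.PN

/-!
# The countable sum theorem for the covering dimension and open subspaces
-/

set_option autoImplicit false

namespace NMK

open Set Topology NMD

universe u

variable {X : Type u} [TopologicalSpace X]

theorem csd_step [NormalSpace X] {k n : ℕ} {F : Set X} (hF : IsClosed F) (hP : DI.P k n F)
    (W : Fin k → Set X) (hW : ∀ i, IsOpen (W i)) (hc : ⋃ i, W i = univ) :
    ∃ V : Fin k → Set X, (∀ i, IsOpen (V i)) ∧ ⋃ i, V i = univ ∧ (∀ i, closure (V i) ⊆ W i) ∧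
      ∀ x ∈ F, {i | x ∈ closure (V i)}.ncard ≤ n := by
  obtain ⟨W', a1, a2, a3, a4⟩ := hP W hW (by rw [hc]; exact subset_univ _)
  have b1 : ∀ i, IsOpen (W' i ∪ (W i \ F)) := fun i => (a1 i).union ((hW i).sdiff hF)
  have b2 : ⋃ i, (W' i ∪ (W i \ F)) = univ := by
    rw [eq_univ_iff_forall]
    intro x
    by_cases hx : x ∈ F
    · obtain ⟨i, hi⟩ := mem_iUnion.1 (a3 hx)
      exact mem_iUnion.2 ⟨i, Or.inl hi⟩
    · have h1 : x ∈ ⋃ i, W i := by rw [hc]; trivial
      obtain ⟨i, hi⟩ := mem_iUnion.1 h1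
      exact mem_iUnion.2 ⟨i, Or.inr ⟨hi, hx⟩⟩
  obtain ⟨K, f1, f2, f3⟩ := exists_iUnion_eq_closed_subset b1 (fun x => toFinite _) b2
  have hV : ∀ i, ∃ V : Set X, IsOpen V ∧ K i ⊆ V ∧ closure V ⊆ W' i ∪ (W i \ F) := fun i =>
    normal_exists_closure_subset (f2 i) (b1 i) (f3 i)
  choose V v1 v2 v3 using hV
  refine ⟨V, v1, ?_, ?_, ?_⟩
  · rw [eq_univ_iff_forall]
    intro x
    have h1 : x ∈ ⋃ i, K i := by rw [f1]; trivial
    obtain ⟨i, hi⟩ := mem_iUnion.1 h1
    exact mem_iUnion.2 ⟨i, v2 i hi⟩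
  · intro i
    exact (v3 i).trans (union_subset (a2 i) sdiff_subset)
  · intro x hx
    refine le_trans (ncard_le_ncard ?_ (toFinite _)) (a4 x hx)
    intro i hi
    rcases v3 i hi with h | h
    · exact h
    · exact absurd hx h.2

/-- the countable sum theorem for the covering dimension -/
theorem csd [NormalSpace X] {n : ℕ} (F : ℕ → Set X) (hF : ∀ i, IsClosed (F i))
    (hU : ⋃ i, F i = univ) (hd : ∀ i, DimLT (F i) n) : DimLT X n := by
  classical
  apply DimLT.of_shrink
  intro k U hUo hUc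
  have st : ∀ (i : ℕ) (c : {W : Fin k → Set X // (∀ j, IsOpen (W j)) ∧ ⋃ j, W j = univ}),
      ∃ c' : {W : Fin k → Set X // (∀ j, IsOpen (W j)) ∧ ⋃ j, W j = univ},
        (∀ j, closure (c'.1 j) ⊆ c.1 j) ∧ ∀ x ∈ F i, {j | x ∈ closure (c'.1 j)}.ncard ≤ n := by
    rintro i ⟨W, hW, hc⟩
    obtain ⟨V, h1, h2, h3, h4⟩ := csd_step (hF i) (DI.P_of_dimLT (k := k) (hd i)) W hW hc
    exact ⟨⟨V, h1, h2⟩, h3, h4⟩
  choose g g1 g2 using st
  let s : ℕ → {W : Fin k → Set X // (∀ j, IsOpen (W j)) ∧ ⋃ j, W j = univ} := fun i =>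
    Nat.rec ⟨U, hUo, hUc⟩ (fun i c => g i c) i
  have s0 : s 0 = ⟨U, hUo, hUc⟩ := rfl
  have ss : ∀ i, s (i + 1) = g i (s i) := fun i => rfl
  have hdec : ∀ i j, closure ((s (i + 1)).1 j) ⊆ (s i).1 j := by
    intro i j
    rw [ss]
    exact g1 i (s i) j
  have hanti : ∀ j, Antitone fun i => (s i).1 j := by
    intro j
    refine antitone_nat_of_succ_le ?_
    intro i
    exact subset_closure.trans (hdec i j)
  set K : Fin k → Set X := fun j => ⋂ i, closure ((s i).1 j) with hK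
  have hKc : ∀ j, IsClosed (K j) := fun j => isClosed_iInter fun i => isClosed_closure
  have hKU : ∀ j, K j ⊆ U j := by
    intro j x hx
    have h1 : x ∈ closure ((s 1).1 j) := mem_iInter.1 hx 1
    exact hdec 0 j h1
  have hKcov : ⋃ j, K j = univ := by
    rw [eq_univ_iff_forall]
    intro x
    by_contra hx
    have h1 : ∀ j, ∃ i, x ∉ (s i).1 j := by
      intro j
      by_contra h2
      push Not at h2
      exact hx (mem_iUnion.2 ⟨j, mem_iInter.2 fun i => subset_closure (h2 i)⟩)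
    choose m hm using h1
    have h2 : x ∈ ⋃ j, (s (Finset.univ.sup m)).1 j := by
      rw [(s (Finset.univ.sup m)).2.2]
      trivial
    obtain ⟨j, hj⟩ := mem_iUnion.1 h2
    exact hm j (hanti j (Finset.le_sup (Finset.mem_univ j)) hj)
  have hord : ∀ x, {j | x ∈ K j}.ncard ≤ n := by
    intro x
    have h1 : x ∈ ⋃ i, F i := by rw [hU]; trivial
    obtain ⟨i, hi⟩ := mem_iUnion.1 h1
    have h2 := g2 i (s i) x hi
    rw [← ss] at h2
    refine le_trans (ncard_le_ncard ?_ (toFinite _)) h2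
    intro j hj
    exact mem_iInter.1 hj (i + 1)
  obtain ⟨H, e1, e2, e3, e4, e5⟩ := DI.swell (n := n) K U hKc hUo hKU hord Finset.univ
  refine ⟨Fin k, inferInstance, fun j => interior (H j), fun j => isOpen_interior,
    fun j => ⟨j, interior_subset.trans (e3 j)⟩, ?_, ?_⟩
  · rw [eq_univ_iff_forall]
    intro x
    have h1 : x ∈ ⋃ j, K j := by rw [hKcov]; trivial
    obtain ⟨j, hj⟩ := mem_iUnion.1 h1
    exact mem_iUnion.2 ⟨j, e4 j (Finset.mem_univ j) hj⟩
  · intro x
    refine le_trans (ncard_le_ncard ?_ (toFinite _)) (e5 x)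
    intro j hj
    have hj' : x ∈ interior (H j) := hj
    have hj2 : x ∈ H j := interior_subset hj'
    exact hj2

/-- an open set of a developable space is a countable union of closed sets -/
theorem exists_closed_union (hX : Developable X) {O : Set X} (hO : IsOpen O) :
    ∃ C : ℕ → Set X, (∀ k, IsClosed (C k)) ∧ ⋃ k, C k = O := by
  obtain ⟨G, hG, hd⟩ := hX
  refine ⟨fun k => {x | star x (G k) ⊆ O}, ?_, ?_⟩
  · intro k
    rw [← isOpen_compl_iff]
    have e : {x | star x (G k) ⊆ O}ᶜ = ⋃₀ {U ∈ G k | ¬ U ⊆ O} := by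
      ext x
      constructor
      · intro hx
        have h1 : ¬ star x (G k) ⊆ O := hx
        obtain ⟨y, hy, hyO⟩ := not_subset.1 h1
        obtain ⟨U, ⟨hU, hxU⟩, hyU⟩ := hy
        exact ⟨U, ⟨hU, fun h => hyO (h hyU)⟩, hxU⟩
      · rintro ⟨U, ⟨hU, hUO⟩, hxU⟩ h
        apply hUO
        intro y hy
        exact h ⟨U, ⟨hU, hxU⟩, hy⟩
    rw [e]
    exact isOpen_sUnion fun U hU => (hG k).1 U hU.1
  · ext x
    constructor
    · intro hx
      obtain ⟨k, hk⟩ := mem_iUnion.1 hx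
      have h1 : x ∈ ⋃₀ G k := by rw [(hG k).2]; trivial
      obtain ⟨U, hU, hxU⟩ := h1
      exact hk ⟨U, ⟨hU, hxU⟩, hxU⟩
    · intro hx
      obtain ⟨k, hk⟩ := hd x O hO hx
      exact mem_iUnion.2 ⟨k, hk⟩

/-- the covering dimension of an open subspace of a normal Moore space -/
theorem dimLT_open [NormalSpace X] (hX : Developable X) {n : ℕ} (hn : DimLT X n) {O : Set X}
    (hO : IsOpen O) : DimLT O n := by
  have hXp : PerfectlyNormalSpace X := t_PN X hX
  obtain ⟨C, hC, hCO⟩ := exists_closed_union hX hO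
  refine csd (X := O) (fun k => Subtype.val ⁻¹' C k) (fun k => (hC k).preimage
    continuous_subtype_val) ?_ ?_
  · rw [← preimage_iUnion, hCO]
    ext x
    simp
  · intro k
    have hsub : C k ⊆ O := by
      rw [← hCO]
      exact subset_iUnion C k
    let f : (Subtype.val ⁻¹' C k : Set O) → X := fun y => y.1.1
    have hf : IsClosedEmbedding f := by
      refine ⟨IsEmbedding.subtypeVal.comp IsEmbedding.subtypeVal, ?_⟩
      have e : range f = C k := by
        ext x
        constructor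
        · rintro ⟨y, rfl⟩
          exact y.2
        · intro hx
          exact ⟨⟨⟨x, hsub hx⟩, hx⟩, rfl⟩
      rw [e]
      exact hC k
    exact t_DCE _ X f hf n hn

end NMK
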