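import Pool.Agent.NMK.Kernel
import Pool.Agent.NMD.IGM
import Pool.Agent.NMD.MAIN2
import Pool.Agent.NMD.SDB
import Pool.Agent.NMD.PN
import Pool.Agent.NMD.FIN
import Pool.Agent.NMD.LOC
import Pool.Agent.NMD.DNS
import Pool.Agent.NMD.GEN
import Pool.Agent.NMD.GP
import Pool.Agent.NMD.GPV
import Pool.Agent.NMD.LVL
import Pool.Agent.NMD.DEC2
import Pool.Agent.NMD.CYL
import Pool.Agent.NMD.SUM
import Pool.Agent.NMD.PROD
import Pool.Agent.NMD.LIM
import Pool.Agent.NMD.DI
import Pool.Agent.NMD.CE1
import Pool.Agent.NMD.CE2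
import Pool.Agent.NMD.DISC
import Pool.Agent.NMD.LIND
import Pool.Agent.NMD.DCE
import Pool.Agent.NMD.RES

/-!
# Everywhere bad spaces
-/

set_option autoImplicit false

namespace NMK

open Set Topology NMD

universe u

/-- `F` is an everywhere bad space: a nonempty normal Moore space such that, with `n = dim F ≥ 1` and
`N = Ind F = n + 1` or `∞`,
* every nonempty open subspace has covering dimension `n` and large inductive dimension `N`,
* every closed subspace `K` has `Ind K = dim K`, or `dim K = n` and `Ind K = N`,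
* every nonempty open set contains two disjoint closed subsets of `F` such that every partition
between them in `F` has covering dimension `n`,
* every normal Moore space `Y` (not only a subspace of `F`) with `dim Y < n` has `Ind Y = dim Y`,
* if a nonempty open subspace is a countable union of (relatively) closed sets which are locally
`GoodM m` then `N ≤ n + m`. -/
structure EverywhereBad (n : ℕ) (N : WithTop ℤ) (F : Type u) [TopologicalSpace F] : Prop where
  normal : NormalSpace F
  moore : IsMoore F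
  nonempty : Nonempty F
  pos : 1 ≤ n
  value : N = ((n + 1 : ℕ) : WithTop ℤ) ∨ N = ⊤
  opens : ∀ O : Set F, IsOpen O → O.Nonempty → covDim O = (n : WithTop ℤ) ∧ Ind O = N
  closeds : ∀ K : Set F, IsClosed K → Ind K = covDim K ∨ (covDim K = (n : WithTop ℤ) ∧ Ind K = N)
  partitions : ∀ O : Set F, IsOpen O → O.Nonempty → ∃ A B : Set F, IsClosed A ∧ IsClosed B ∧
    Disjoint A B ∧ A ⊆ O ∧ B ⊆ O ∧ ∀ G H : Set F, IsOpen G → IsOpen H → Disjoint G H → A ⊆ G →
      B ⊆ H → covDim ((G ∪ H)ᶜ : Set F) = (n : WithTop ℤ)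
  below : ∀ (Y : Type u) [TopologicalSpace Y] [NormalSpace Y], IsMoore Y →
    covDim Y < (n : WithTop ℤ) → Ind Y = covDim Y
  good : ∀ (m : ℕ) (O : Set F), IsOpen O → O.Nonempty →
    (∃ C : ℕ → Set O, (∀ k, IsClosed (C k)) ∧ ⋃ k, C k = univ ∧
      ∀ k, ∀ x : C k, ∃ V : Set (C k), IsOpen V ∧ x ∈ V ∧ GoodM m V) → N ≤ (n : WithTop ℤ) + m

theorem main2 : MainStatement2.{u} :=
  t_MAIN2 t_SDB t_PN (t_FIN t_LOC t_DNS) t_BR (t_GEN (t_GP t_GPV)) t_LVL
    (t_DEC2 t_CYL t_SUM t_UM t_PROD t_LIM) t_DI

theorem igm : MainStatement4.{u} :=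
  t_IGM t_PN t_DI t_CE1 t_CE2 (t_LIND t_DISC) t_DCE main2

/-- below the critical dimension -/
theorem ind_eq_covDim {n : ℕ} (hOK : ∀ e ≤ n, OK.{u} e) (Y : Type u) [TopologicalSpace Y]
    [NormalSpace Y] (hY : IsMoore Y) (h : DimLT Y n) : Ind Y = covDim Y := by
  have h3 : ∀ k, IndLT k Y ↔ DimLT Y k := by
    intro k
    refine ⟨t_DI Y k, fun hk => ?_⟩
    by_cases hkn : k ≤ n
    · exact hOK k hkn Y hY hk
    · exact MAIN3.indLT_mono (by omega) Y (hOK n le_rfl Y hY h)
  have h4 : (fun k => IndLT k Y) = fun k => DimLT Y k := funext fun k => propext (h3 k)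
  unfold Ind covDim
  rw [h4]

theorem dimLT_of_covDim_lt {n : ℕ} {Y : Type u} [TopologicalSpace Y]
    (h : covDim Y < (n : WithTop ℤ)) : DimLT Y n := by
  classical
  by_contra hc
  by_cases hd : DimLT Y (n + 1)
  · rw [dim_eq Y hd hc] at h
    exact lt_irrefl _ h
  · exact hd ((dim_le_iff Y n).1 h.le)

theorem exists_everywhereBad (hQ : ¬ Q1.{u}) :
    ∃ (n : ℕ) (N : WithTop ℤ) (F : Type u) (_ : TopologicalSpace F), EverywhereBad n N F := by
  obtain ⟨n, N, hn, hN, hOK, F, tF, nF, mF, neF, hd, hop, hval⟩ := exists_kernel hQ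
  have hdn : ∀ {S : Set F}, IsOpen S ∨ IsClosed S → DimLT S (n + 1) := by
    intro S hS
    rcases hS with hS | hS
    · exact dimLT_open mF.2 hd hS
    · exact t_DCE _ _ _ hS.isClosedEmbedding_subtypeVal _ hd
  have hmS : ∀ S : Set F, IsMoore S := fun S =>
    MAIN3.moore_of_inducing mF IsInducing.subtypeVal
  have hpF : PerfectlyNormalSpace F := t_PN _ mF.2
  have hbad : ∀ {S : Set F}, IsOpen S ∨ IsClosed S → ¬ IndLT (n + 1) S →
      covDim S = (n : WithTop ℤ) ∧ Ind S = N := by
    intro S hS hi
    refine ⟨dim_eq S (hdn hS) ?_, hval S hS hi⟩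
    intro h
    exact hi (MAIN3.indLT_mono (by omega) _ (hOK n le_rfl S (hmS S) h))
  refine ⟨n, N, F, tF, ⟨nF, mF, neF, hn, hN, ?_, ?_, ?_, ?_, ?_⟩⟩
  · intro O hO hne
    exact hbad (Or.inl hO) (hop O hO hne)
  · intro K hK
    by_cases hi : IndLT (n + 1) K
    · left
      have nK : NormalSpace K := hK.isClosedEmbedding_subtypeVal.normalSpace
      by_cases hdK : DimLT K n
      · exact ind_eq_covDim hOK K (hmS K) hdK
      · rw [dim_eq K (hdn (Or.inr hK)) hdK]
        exact ind_eq K hi fun h => hdK (t_DI K n h)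
    · exact Or.inr (hbad (Or.inr hK) hi)
  · intro O hO hne
    obtain ⟨x, hx⟩ := hne
    have rF : RegularSpace F := mF.1
    obtain ⟨O₁, hO₁, hx₁, hcl⟩ : ∃ O₁ : Set F, IsOpen O₁ ∧ x ∈ O₁ ∧ closure O₁ ⊆ O := by
      obtain ⟨t, ht, htc, hts⟩ := exists_mem_nhds_isClosed_subset (hO.mem_nhds hx)
      refine ⟨interior t, isOpen_interior, mem_interior_iff_mem_nhds.2 ht, ?_⟩
      exact (closure_mono interior_subset).trans (by rw [htc.closure_eq]; exact hts)
    have hK : IsClosed (closure O₁) := isClosed_closure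
    have hemb := hK.isClosedEmbedding_subtypeVal
    have nK : NormalSpace (closure O₁) := hemb.normalSpace
    have hiK : ¬ IndLT (n + 1) (closure O₁) := by
      intro h
      have h1 : IndLT (n + 1) (Subtype.val ⁻¹' O₁ : Set (closure O₁)) :=
        indLT_open (hmS _).2 h (hO₁.preimage continuous_subtype_val)
      let f : (Subtype.val ⁻¹' O₁ : Set (closure O₁)) → F := fun y => y.1.1
      have hf : IsInducing f := IsInducing.subtypeVal.comp IsInducing.subtypeVal
      have h2 : RInd (n + 1) (range f) := (rind_iff hf _).2 h1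
      have e : range f = O₁ := by
        ext z
        constructor
        · rintro ⟨y, rfl⟩
          exact y.2
        · intro hz
          exact ⟨⟨⟨z, subset_closure hz⟩, hz⟩, rfl⟩
      rw [e] at h2
      exact hop O₁ hO₁ ⟨x, hx₁⟩ ((rind_set_iff _ _).1 h2)
    have hiK' : ¬ ∀ A U : Set (closure O₁), IsClosed A → IsOpen U → A ⊆ U →
      ∃ V : Set (closure O₁), IsOpen V ∧ A ⊆ V ∧ closure V ⊆ U ∧ IndLT n (frontier V) := hiK
    push Not at hiK'
    obtain ⟨A, U, hA, hU, hAU, hno⟩ := hiK'
    refine ⟨Subtype.val '' A, Subtype.val '' Uᶜ, hemb.isClosedMap _ hA,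
      hemb.isClosedMap _ hU.isClosed_compl, ?_, ?_, ?_, ?_⟩
    · rw [Set.disjoint_left]
      rintro _ ⟨a, ha, rfl⟩ ⟨b, hb, hab⟩
      rw [Subtype.ext hab] at hb
      exact hb (hAU ha)
    · rintro _ ⟨a, _, rfl⟩
      exact hcl a.2
    · rintro _ ⟨a, _, rfl⟩
      exact hcl a.2
    · intro G H hG hH hGH hAG hBH
      have hL : IsClosed ((G ∪ H)ᶜ : Set F) := (hG.union hH).isClosed_compl
      refine dim_eq _ (hdn (Or.inr hL)) ?_
      intro hdL
      let V : Set (closure O₁) := Subtype.val ⁻¹' G
      have hV : IsOpen V := hG.preimage continuous_subtype_val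
      have hVc : closure V ⊆ (Subtype.val ⁻¹' H : Set (closure O₁))ᶜ := by
        refine closure_minimal ?_ (hH.preimage continuous_subtype_val).isClosed_compl
        intro y hy hy'
        exact Set.disjoint_left.1 hGH hy hy'
      have hVU : closure V ⊆ U := by
        intro y hy
        by_contra hyU
        exact hVc hy (hBH ⟨y, hyU, rfl⟩)
      have hAV : A ⊆ V := fun a ha => hAG ⟨a, ha, rfl⟩
      refine hno V hV hAV hVU ?_
      -- the frontier of `V` is a closed subspace of the partition
      have hfr : ∀ y : closure O₁, y ∈ frontier V → (y : F) ∈ ((G ∪ H)ᶜ : Set F) := by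
        rintro y hy (h | h)
        · rw [hV.frontier_eq] at hy
          exact hy.2 h
        · exact hVc (frontier_subset_closure hy) h
      let g : frontier V → ((G ∪ H)ᶜ : Set F) := fun y => ⟨(y.1 : F), hfr y.1 y.2⟩
      have hgi : IsInducing g := by
        have h1 : IsInducing (Subtype.val ∘ g) :=
          (IsInducing.subtypeVal.comp IsInducing.subtypeVal :
            IsInducing (fun y : frontier V => ((y : closure O₁) : F)))
        exact IsInducing.subtypeVal.of_comp_iff.1 h1
      have hginj : Function.Injective g := by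
        intro y z hyz
        have h1 : (g y : F) = (g z : F) := by rw [hyz]
        exact Subtype.ext (Subtype.ext h1)
      have hgcl : IsClosed (range g) := by
        have h2 : IsClosed (Subtype.val '' (frontier V : Set (closure O₁)) : Set F) :=
          hemb.isClosedMap _ isClosed_frontier
        have h3 : range g = Subtype.val ⁻¹' (Subtype.val '' (frontier V : Set (closure O₁)) : Set F) := by
          ext z
          constructor
          · rintro ⟨y, rfl⟩
            exact ⟨y.1, y.2, rfl⟩
          · rintro ⟨y, hy, hyz⟩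
            exact ⟨⟨y, hy⟩, Subtype.ext hyz⟩
        rw [h3]
        exact h2.preimage continuous_subtype_val
      have hge : IsClosedEmbedding g := ⟨⟨hgi, hginj⟩, hgcl⟩
      have nL : NormalSpace ((G ∪ H)ᶜ : Set F) := hL.isClosedEmbedding_subtypeVal.normalSpace
      have nV : NormalSpace (frontier V) := hge.normalSpace
      have mV : IsMoore (frontier V) := MAIN3.moore_of_inducing (hmS _) hgi
      exact hOK n le_rfl _ mV (t_DCE _ _ _ hge _ hdL)
  · intro Y _ _ hY hYn
    exact ind_eq_covDim hOK Y hY (dimLT_of_covDim_lt hYn)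
  · intro m O hO hne hC
    obtain ⟨C, hC, hU, hG⟩ := hC
    have h1 := (igm O (hmS O) m C hC hU hG).2
    have h2 := hbad (Or.inl hO) (hop O hO hne)
    rw [h2.1, h2.2] at h1
    exact h1

theorem q1_iff_not_everywhereBad : Q1.{u} ↔
    ¬ ∃ (n : ℕ) (N : WithTop ℤ) (F : Type u) (_ : TopologicalSpace F), EverywhereBad n N F := by
  constructor
  · rintro h ⟨n, N, F, tF, hF⟩
    have nF := hF.normal
    have h1 : IsMoore (univ : Set F) := MAIN3.moore_of_inducing hF.moore IsInducing.subtypeVal
    have h2 := hF.opens univ isOpen_univ (by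
      obtain ⟨x⟩ := hF.nonempty
      exact ⟨x, mem_univ x⟩)
    have n1 : NormalSpace (univ : Set F) := isClosed_univ.isClosedEmbedding_subtypeVal.normalSpace
    have h3 := h (univ : Set F) h1
    rw [h2.1, h2.2] at h3
    rcases hF.value with h4 | h4
    · rw [h4] at h3
      have : (n + 1 : ℕ) = n := by exact_mod_cast h3
      omega
    · rw [h4] at h3
      exact absurd h3.symm (by exact_mod_cast WithTop.coe_ne_top (a := (n : ℤ)))
  · intro h
    by_contra hc
    exact h (exists_everywhereBad hc)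

end NMK
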