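import Pool.Agent.NMD.MAIN3
import Pool.Agent.NMD.BR
import Pool.Agent.NMD.BR2
import Pool.Agent.NMD.CE1
import Pool.Agent.NMD.CE2
import Pool.Agent.NMD.LIND
import Pool.Agent.NMD.DISC
import Pool.Agent.NMK.CSD

/-!
# The local to global principle for the large inductive dimension of normal Moore spaces
-/

set_option autoImplicit false

namespace NMK

open Set Topology NMD

universe u

variable {X : Type u} [TopologicalSpace X]

theorem rind_iff {Y : Type u} [TopologicalSpace Y] {f : Y → X} (hf : IsInducing f) (n : ℕ) :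
    RInd n (range f) ↔ IndLT n Y :=
  ⟨BR.main n Y f hf, BR2.main n Y f hf⟩

theorem rind_set_iff (n : ℕ) (S : Set X) : RInd n S ↔ IndLT n S := by
  have h := rind_iff (X := X) (f := (Subtype.val : S → X)) IsInducing.subtypeVal n
  rwa [Subtype.range_coe] at h

theorem rind_univ_iff (n : ℕ) : RInd n (univ : Set X) ↔ IndLT n X := by
  have h := rind_iff (X := X) (f := (id : X → X)) IsInducing.id n
  rwa [range_id] at h

theorem sumT' [PerfectlyNormalSpace X] (n : ℕ) : SumT X n :=
  MAIN3.sumT t_CE1 t_CE2 X n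

theorem rind_open [PerfectlyNormalSpace X] {n : ℕ} {S O : Set X} (h : RInd n S)
    (hO : IsOpen O) : RInd n (S ∩ O) := by
  cases n with
  | zero =>
    have h1 : S = ∅ := h
    show S ∩ O = ∅
    rw [h1, empty_inter]
  | succ n => exact t_CE1 X n (sumT' n) S O h hO

/-- `G` open, `F` closed, `S ∩ G` and `S ∩ F` of dimension `< n`, `S ⊆ G ∪ F` -/
theorem rind_glue [PerfectlyNormalSpace X] (hX : Developable X) {n : ℕ} {S G F : Set X}
    (hG : IsOpen G) (hF : IsClosed F) (h1 : RInd n (S ∩ G)) (h2 : RInd n (S ∩ F))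
    (h3 : S ⊆ G ∪ F) : RInd n S := by
  obtain ⟨C, hC, hCG⟩ := exists_closed_union hX hG
  refine sumT' n S (fun k => Nat.casesOn k (F ∩ S) fun k => C k ∩ S) ?_ ?_ ?_
  · intro k
    cases k with
    | zero => exact ⟨F, hF, rfl⟩
    | succ k => exact ⟨C k, hC k, rfl⟩
  · ext x
    constructor
    · intro hx
      obtain ⟨k, hk⟩ := mem_iUnion.1 hx
      cases k with
      | zero => exact hk.2
      | succ k => exact hk.2
    · intro hx
      rcases h3 hx with hxG | hxF
      · rw [← hCG] at hxG
        obtain ⟨k, hk⟩ := mem_iUnion.1 hxG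
        exact mem_iUnion.2 ⟨k + 1, hk, hx⟩
      · exact mem_iUnion.2 ⟨0, hxF, hx⟩
  · intro k
    cases k with
    | zero =>
      show RInd n (F ∩ S)
      rwa [inter_comm]
    | succ k =>
      show RInd n (C k ∩ S)
      have h4 := BR.inter_closed n (S ∩ G) (C k) h1 (hC k)
      have h5 : C k ∩ (S ∩ G) = C k ∩ S := by
        ext x
        constructor
        · rintro ⟨a, b, _⟩
          exact ⟨a, b⟩
        · rintro ⟨a, b⟩
          exact ⟨a, b, by rw [← hCG]; exact mem_iUnion.2 ⟨k, a⟩⟩
      rwa [h5] at h4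

/-- the union of the open sets of dimension `< n` -/
def core (X : Type u) [TopologicalSpace X] (n : ℕ) : Set X := ⋃₀ {O | IsOpen O ∧ RInd n O}

theorem isOpen_core (n : ℕ) : IsOpen (core X n) := isOpen_sUnion fun _ h => h.1

/-- the union of the open sets of dimension `< n` has dimension `< n` -/
theorem rind_core [NormalSpace X] (hX : Developable X) (n : ℕ) : RInd n (core X n) := by
  have hXp : PerfectlyNormalSpace X := t_PN X hX
  have hd : Developable (core X n) :=
    MAIN3.developable_of_inducing hX (f := (Subtype.val : core X n → X)) IsInducing.subtypeVal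
  have hp : PerfectlyNormalSpace (core X n) := t_PN _ hd
  rw [rind_set_iff, ← rind_univ_iff]
  refine t_LIND t_DISC (core X n) hd n (sumT' n) ?_
  rintro ⟨x, hx⟩
  obtain ⟨O, ⟨hO, hR⟩, hxO⟩ := hx
  refine ⟨Subtype.val ⁻¹' O, hO.preimage continuous_subtype_val, hxO, ?_⟩
  intro C hC hCO
  obtain ⟨C', hC', rfl⟩ := isClosed_induced_iff.1 hC
  rw [rind_set_iff]
  let f : (Subtype.val ⁻¹' C' : Set (core X n)) → X := fun y => y.1.1
  have hf : IsInducing f := IsInducing.subtypeVal.comp IsInducing.subtypeVal
  rw [← rind_iff hf]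
  have e : range f = C' ∩ O := by
    ext z
    constructor
    · rintro ⟨y, rfl⟩
      exact ⟨y.2, hCO y.2⟩
    · rintro ⟨a, b⟩
      exact ⟨⟨⟨z, ⟨O, ⟨hO, hR⟩, b⟩⟩, a⟩, rfl⟩
  rw [e]
  exact BR.inter_closed n O C' hR hC'

/-- maximality: an open set whose trace outside of the core has dimension `< n` is contained in
the core -/
theorem sub_core [NormalSpace X] (hX : Developable X) {n : ℕ} {W : Set X} (hW : IsOpen W)
    (h : RInd n (W ∩ (core X n)ᶜ)) : W ⊆ core X n := by
  have hXp : PerfectlyNormalSpace X := t_PN X hX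
  have h1 : RInd n (W ∩ core X n) := by
    rw [inter_comm]
    exact rind_open (rind_core hX n) hW
  have h2 : RInd n W := rind_glue hX (isOpen_core n) (isOpen_core n).isClosed_compl h1 h (by
    rw [union_compl_self]
    exact subset_univ W)
  intro x hx
  exact ⟨W, ⟨hW, h2⟩, hx⟩

/-- no nonempty relatively open subset of the complement of the core has dimension `< n` -/
theorem not_indLT_open [NormalSpace X] (hX : Developable X) {n : ℕ}
    {O : Set ((core X n)ᶜ : Set X)} (hO : IsOpen O) (hne : O.Nonempty) : ¬ IndLT n O := by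
  intro h
  obtain ⟨W, hW, rfl⟩ := isOpen_induced_iff.1 hO
  obtain ⟨x, hx⟩ := hne
  let f : (Subtype.val ⁻¹' W : Set ((core X n)ᶜ : Set X)) → X := fun y => y.1.1
  have hf : IsInducing f := IsInducing.subtypeVal.comp IsInducing.subtypeVal
  have h1 : RInd n (range f) := (rind_iff hf n).2 h
  have e : range f = W ∩ (core X n)ᶜ := by
    ext z
    constructor
    · rintro ⟨y, rfl⟩
      exact ⟨y.2, y.1.2⟩
    · rintro ⟨a, b⟩
      exact ⟨⟨⟨z, b⟩, a⟩, rfl⟩
  rw [e] at h1
  exact x.2 (sub_core hX hW h1 hx)

/-- The principle: if every nonempty closed subspace has a nonempty relatively open subspace of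
dimension `< n` then the space has dimension `< n`. -/
theorem principle [NormalSpace X] (hX : Developable X) {n : ℕ}
    (h : ∀ F : Set X, IsClosed F → F.Nonempty → ∃ O : Set F, IsOpen O ∧ O.Nonempty ∧ IndLT n O) :
    IndLT n X := by
  by_cases hc : ((core X n)ᶜ : Set X).Nonempty
  · obtain ⟨O, hO, hne, hi⟩ := h _ (isOpen_core n).isClosed_compl hc
    exact absurd hi (not_indLT_open hX hO hne)
  · have h1 : core X n = univ := by
      rw [not_nonempty_iff_eq_empty] at hc
      rw [← compl_compl (core X n), hc, compl_empty]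
    rw [← rind_univ_iff, ← h1]
    exact rind_core hX n

theorem compl_core_nonempty [NormalSpace X] (hX : Developable X) {n : ℕ} (h : ¬ IndLT n X) :
    ((core X n)ᶜ : Set X).Nonempty := by
  by_contra hc
  have h1 : core X n = univ := by
    rw [not_nonempty_iff_eq_empty] at hc
    rw [← compl_compl (core X n), hc, compl_empty]
  apply h
  rw [← rind_univ_iff, ← h1]
  exact rind_core hX n

/-- open subspaces -/
theorem indLT_open [NormalSpace X] (hX : Developable X) {n : ℕ} (h : IndLT n X) {O : Set X}
    (hO : IsOpen O) : IndLT n O := by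
  have hXp : PerfectlyNormalSpace X := t_PN X hX
  rw [← rind_set_iff]
  have h1 := rind_open ((rind_univ_iff n).2 h) hO
  rwa [univ_inter] at h1

theorem indLT_closedEmbedding {Y : Type u} [TopologicalSpace Y] {f : Y → X}
    (hf : IsClosedEmbedding f) {n : ℕ} (h : IndLT n X) : IndLT n Y := by
  rw [← rind_iff hf.isInducing]
  have h1 := BR.inter_closed n univ (range f) ((rind_univ_iff n).2 h) hf.isClosed_range
  rwa [inter_univ] at h1

end NMK
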