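import Pool.Agent.NMD.IGM
import Pool.Agent.NMD.MAIN
import Pool.Agent.NMD.DI
import Pool.Agent.NMK.Loc

/-!
# Minimal counterexamples to `Ind = dim` for normal Moore spaces
-/

set_option autoImplicit false

namespace NMK

open Set Topology NMD

universe u

/-! ### values -/

theorem dimVal_eq {P : ℕ → Prop} (hP : ∀ n m, n ≤ m → P n → P m) {n : ℕ} (h1 : P (n + 1))
    (h0 : ¬ P n) : dimVal P = (n : WithTop ℤ) := by
  classical
  have h : ∃ k, P k := ⟨n + 1, h1⟩
  have hf : Nat.find h = n + 1 := by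
    refine le_antisymm (Nat.find_min' h h1) ?_
    by_contra hc
    exact h0 (hP _ n (by omega) (Nat.find_spec h))
  unfold dimVal
  rw [dif_pos h, hf]
  have : (((n + 1 : ℕ) : ℤ) - 1) = (n : ℤ) := by push_cast; ring
  rw [this]
  rfl

theorem dimVal_top {P : ℕ → Prop} (h : ∀ n, ¬ P n) : dimVal P = ⊤ := by
  classical
  unfold dimVal
  rw [dif_neg (by rintro ⟨n, hn⟩; exact h n hn)]

theorem dimVal_le' {P : ℕ → Prop} (hP : ∀ n m, n ≤ m → P n → P m) (n : ℕ) :
    dimVal P ≤ (n : WithTop ℤ) ↔ P (n + 1) := by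
  rw [IGM.dimVal_le_iff]
  constructor
  · rintro ⟨k, hk, h⟩
    exact hP k _ hk h
  · intro h
    exact ⟨n + 1, le_rfl, h⟩

section

variable (X : Type u) [TopologicalSpace X]

theorem dim_mono : ∀ n m, n ≤ m → DimLT X n → DimLT X m := fun _ _ hnm h => h.mono hnm

theorem ind_mono : ∀ n m, n ≤ m → IndLT n X → IndLT m X := fun _ _ hnm h =>
  MAIN3.indLT_mono hnm X h

theorem ind_le_iff (n : ℕ) : Ind X ≤ (n : WithTop ℤ) ↔ IndLT (n + 1) X :=
  dimVal_le' (ind_mono X) n

theorem dim_le_iff (n : ℕ) : covDim X ≤ (n : WithTop ℤ) ↔ DimLT X (n + 1) :=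
  dimVal_le' (dim_mono X) n

theorem ind_eq {n : ℕ} (h1 : IndLT (n + 1) X) (h0 : ¬ IndLT n X) : Ind X = (n : WithTop ℤ) :=
  dimVal_eq (ind_mono X) h1 h0

theorem dim_eq {n : ℕ} (h1 : DimLT X (n + 1)) (h0 : ¬ DimLT X n) : covDim X = (n : WithTop ℤ) :=
  dimVal_eq (dim_mono X) h1 h0

theorem ind_top (h : ∀ n, ¬ IndLT n X) : Ind X = ⊤ := dimVal_top h

/-- `dim ≤ 0` implies `Ind ≤ 0` -/
theorem indLT_one (h : DimLT X 1) : IndLT 1 X := by
  intro A U hA hU hAU
  obtain ⟨V, h1, h2, h3, h4⟩ := h.shrink (fun i : Fin 2 => if i = 0 then U else Aᶜ)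
    (fun i => by
      by_cases hi : i = 0
      · simp only [hi, if_true]
        exact hU
      · simp only [hi, if_false]
        exact hA.isOpen_compl) (by
      rw [eq_univ_iff_forall]
      intro x
      by_cases hx : x ∈ A
      · exact mem_iUnion.2 ⟨0, by simpa using hAU hx⟩
      · exact mem_iUnion.2 ⟨1, by simpa using hx⟩)
  have hd : ∀ x, x ∈ V 0 → x ∈ V 1 → False := by
    intro x a b
    have h5 := h4 x
    have h6 : ({0, 1} : Set (Fin 2)) ⊆ {i | x ∈ V i} := by
      rintro i (rfl | rfl)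
      · exact a
      · exact b
    have h7 := ncard_le_ncard h6 (toFinite _)
    rw [ncard_pair (by decide)] at h7
    omega
  have hc : ∀ x, x ∉ V 1 → x ∈ V 0 := by
    intro x hx
    have h5 : x ∈ ⋃ i, V i := by rw [h3]; trivial
    obtain ⟨i, hi⟩ := mem_iUnion.1 h5
    fin_cases i
    · exact hi
    · exact absurd hi hx
  have e : V 0 = (V 1)ᶜ := by
    ext x
    exact ⟨fun a b => hd x a b, fun a => hc x a⟩
  have hcl : IsClosed (V 0) := by
    rw [e]
    exact (h1 1).isClosed_compl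
  refine ⟨V 0, h1 0, ?_, ?_, ?_⟩
  · intro x hx
    refine hc x fun hx1 => ?_
    have h5 := h2 1 hx1
    simp only [one_ne_zero, if_false] at h5
    exact h5 hx
  · rw [hcl.closure_eq]
    intro x hx
    have h5 := h2 0 hx
    simpa using h5
  · show IsEmpty _
    have h5 : frontier (V 0) = ∅ := by
      rw [(h1 0).frontier_eq, hcl.closure_eq, sdiff_self]
    rw [h5]
    infer_instance

end

/-! ### the question -/

/-- Q1 of the problem: every normal Moore space `X` satisfies `Ind X = dim X`. -/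
def Q1 : Prop :=
  ∀ (X : Type u) [TopologicalSpace X] [NormalSpace X], IsMoore X → Ind X = covDim X

/-- all normal Moore spaces of dimension `< d` satisfy `Ind = dim` -/
def OK (d : ℕ) : Prop :=
  ∀ (X : Type u) [TopologicalSpace X] [NormalSpace X], IsMoore X → DimLT X d → IndLT d X

theorem q1_iff : Q1.{u} ↔ ∀ d, OK.{u} d := by
  constructor
  · intro h d X _ _ hX hd
    obtain ⟨k, hk, hP⟩ := MAIN3.exists_le_of_dimVal (h X hX) hd
    exact MAIN3.indLT_mono hk X hP
  · intro h X _ _ hX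
    have h3 : (fun n => IndLT n X) = fun n => DimLT X n := by
      funext n
      exact propext ⟨t_DI X n, h n X hX⟩
    unfold Ind covDim
    rw [h3]

theorem ok_zero : OK.{u} 0 := by
  intro X _ _ _ h
  exact MAIN.isEmpty_of_dimLT h

theorem ok_one : OK.{u} 1 := fun X _ _ _ h => indLT_one X h

/-- `X` is a counterexample of dimension exactly `d - 1`, for minimal `d` -/
structure Bad (d : ℕ) (X : Type u) [TopologicalSpace X] : Prop where
  normal : NormalSpace X
  moore : IsMoore X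
  dim : DimLT X d
  ind : ¬ IndLT d X

/-- the least finite value of `Ind` on counterexamples of least dimension is `dim + 1` -/
theorem gap_one {d : ℕ} (h : ∃ (k : ℕ) (X : Type u) (_ : TopologicalSpace X), Bad d X ∧ IndLT k X) :
    ∃ (X : Type u) (_ : TopologicalSpace X), Bad d X ∧ IndLT (d + 1) X := by
  classical
  obtain ⟨X, tX, hX, hk⟩ := Nat.find_spec h
  have hmin := fun m (hm : m < Nat.find h) => Nat.find_min h hm
  by_cases hle : Nat.find h ≤ d + 1
  · exact ⟨X, tX, hX, MAIN3.indLT_mono hle X hk⟩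
  · exfalso
    obtain ⟨k, hk2⟩ : ∃ k, Nat.find h = k + 2 := ⟨Nat.find h - 2, by omega⟩
    rw [hk2] at hk hmin
    have h1 : ¬ IndLT (k + 1) X := fun hc => hmin (k + 1) (by omega) ⟨X, tX, hX, hc⟩
    apply h1
    intro A U hA hU hAU
    obtain ⟨V, hV, a1, a2, a3⟩ := hk A U hA hU hAU
    refine ⟨V, hV, a1, a2, ?_⟩
    have := hX.normal
    have hemb : IsClosedEmbedding (Subtype.val : frontier V → X) :=
      isClosed_frontier.isClosedEmbedding_subtypeVal
    have hnorm : NormalSpace (frontier V) := hemb.normalSpace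
    have hm : IsMoore (frontier V) := MAIN3.moore_of_inducing hX.moore hemb.isInducing
    have hd : DimLT (frontier V) d := t_DCE _ X _ hemb d hX.dim
    by_contra hc
    have hb : Bad d (frontier V) :=
      ⟨hnorm, hm, hd, fun hd' => hc (MAIN3.indLT_mono (by omega) _ hd')⟩
    exact hmin (k + 1) (by omega) ⟨_, _, hb, a3⟩

theorem exists_kernel (hQ : ¬ Q1.{u}) : ∃ (n : ℕ) (N : WithTop ℤ), 1 ≤ n ∧
    (N = ((n + 1 : ℕ) : WithTop ℤ) ∨ N = ⊤) ∧ (∀ e ≤ n, OK.{u} e) ∧
    ∃ (F : Type u) (_ : TopologicalSpace F), NormalSpace F ∧ IsMoore F ∧ Nonempty F ∧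
      DimLT F (n + 1) ∧ (∀ O : Set F, IsOpen O → O.Nonempty → ¬ IndLT (n + 1) O) ∧
      ∀ S : Set F, IsOpen S ∨ IsClosed S → ¬ IndLT (n + 1) S → Ind S = N := by
  classical
  rw [q1_iff] at hQ
  push Not at hQ
  have hmin : ∀ e < Nat.find hQ, OK.{u} e := by
    intro e he
    by_contra hc
    exact Nat.find_min hQ he hc
  have hspec := Nat.find_spec hQ
  obtain ⟨n, hn⟩ : ∃ n, Nat.find hQ = n + 1 := by
    refine ⟨Nat.find hQ - 1, ?_⟩
    have : Nat.find hQ ≠ 0 := by
      intro h0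
      rw [h0] at hspec
      exact hspec ok_zero
    omega
  rw [hn] at hmin hspec
  have hn1 : 1 ≤ n := by
    by_contra hc
    have h0 : n = 0 := by omega
    rw [h0] at hspec
    exact hspec ok_one
  have hbad : ∃ (X : Type u) (_ : TopologicalSpace X), Bad (n + 1) X := by
    unfold OK at hspec
    push Not at hspec
    obtain ⟨X, tX, nX, hX, h1, h2⟩ := hspec
    exact ⟨X, tX, nX, hX, h1, h2⟩
  -- the choice of the space
  obtain ⟨N, X, tX, hX, hN, hval⟩ : ∃ (N : WithTop ℤ) (X : Type u) (_ : TopologicalSpace X),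
      Bad (n + 1) X ∧ (N = ((n + 1 : ℕ) : WithTop ℤ) ∨ N = ⊤) ∧
      ∀ (S : Type u) [TopologicalSpace S], Bad (n + 1) S →
        (∀ k, IndLT k X → IndLT k S) → Ind S = N := by
    by_cases hf : ∃ (k : ℕ) (X : Type u) (_ : TopologicalSpace X), Bad (n + 1) X ∧ IndLT k X
    · obtain ⟨X, tX, hX, h1⟩ := gap_one hf
      refine ⟨((n + 1 : ℕ) : WithTop ℤ), X, tX, hX, Or.inl rfl, ?_⟩
      intro S _ hS hmon
      exact ind_eq S (hmon _ h1) hS.ind
    · obtain ⟨X, tX, hX⟩ := hbad
      refine ⟨⊤, X, tX, hX, Or.inr rfl, ?_⟩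
      intro S _ hS _
      exact ind_top S fun k hk => hf ⟨k, S, _, hS, hk⟩
  have := hX.normal
  have hXd := hX.moore.2
  have hne := compl_core_nonempty hXd hX.ind
  have hcl : IsClosed ((core X (n + 1))ᶜ : Set X) := (isOpen_core (n + 1)).isClosed_compl
  have hemb : IsClosedEmbedding (Subtype.val : ((core X (n + 1))ᶜ : Set X) → X) :=
    hcl.isClosedEmbedding_subtypeVal
  have hnF : NormalSpace ((core X (n + 1))ᶜ : Set X) := hemb.normalSpace
  have hmF : IsMoore ((core X (n + 1))ᶜ : Set X) :=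
    MAIN3.moore_of_inducing hX.moore hemb.isInducing
  have hdF : DimLT ((core X (n + 1))ᶜ : Set X) (n + 1) := t_DCE _ X _ hemb _ hX.dim
  refine ⟨n, N, hn1, hN, fun e he => hmin e (by omega), ((core X (n + 1))ᶜ : Set X), inferInstance,
    hnF, hmF, hne.to_subtype, hdF, fun O hO hOne => not_indLT_open hXd hO hOne, ?_⟩
  intro S hS hSi
  have hpF : PerfectlyNormalSpace ((core X (n + 1))ᶜ : Set X) := t_PN _ hmF.2
  refine hval S ⟨inferInstance, MAIN3.moore_of_inducing hmF IsInducing.subtypeVal, ?_, hSi⟩ ?_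
  · rcases hS with hS | hS
    · exact dimLT_open hmF.2 hdF hS
    · exact t_DCE _ _ _ hS.isClosedEmbedding_subtypeVal _ hdF
  · intro k hk
    have h1 := indLT_closedEmbedding hemb hk
    rcases hS with hS | hS
    · exact indLT_open hmF.2 h1 hS
    · exact indLT_closedEmbedding hS.isClosedEmbedding_subtypeVal h1

end NMK
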